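import Pool.Agent.Helper3_PPZ.Stmts

/-! # Squad PPZ, module ALT: `θ` is algebraic over `k(x, z)` -/

set_option autoImplicit false

universe u

namespace Pool.Agent.PPZ.H86

open MvPolynomial PGH PPX

theorem exists_K {α : Type*} (s₁ s₂ : Finset α) (f₁ f₂ : Fin 17 → α → ℤ) : ∃ K : ℕ,
    ∀ l : Fin 17, (∀ c ∈ s₁, 0 ≤ (K : ℤ) + f₁ l c) ∧ ∀ c ∈ s₂, 0 ≤ (K : ℤ) + f₂ l c := by
  refine ⟨(∑ l, ∑ c ∈ s₁, (f₁ l c).natAbs) + ∑ l, ∑ c ∈ s₂, (f₂ l c).natAbs, fun l => ⟨?_, ?_⟩⟩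
  · intro c hc
    have h1 : (f₁ l c).natAbs ≤ ∑ c ∈ s₁, (f₁ l c).natAbs :=
      Finset.single_le_sum (f := fun c => (f₁ l c).natAbs) (fun _ _ => Nat.zero_le _) hc
    have h2 : ∑ c ∈ s₁, (f₁ l c).natAbs ≤ ∑ l, ∑ c ∈ s₁, (f₁ l c).natAbs :=
      Finset.single_le_sum (f := fun l => ∑ c ∈ s₁, (f₁ l c).natAbs)
        (fun _ _ => Nat.zero_le _) (Finset.mem_univ l)
    omega
  · intro c hc
    have h1 : (f₂ l c).natAbs ≤ ∑ c ∈ s₂, (f₂ l c).natAbs :=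
      Finset.single_le_sum (f := fun c => (f₂ l c).natAbs) (fun _ _ => Nat.zero_le _) hc
    have h2 : ∑ c ∈ s₂, (f₂ l c).natAbs ≤ ∑ l, ∑ c ∈ s₂, (f₂ l c).natAbs :=
      Finset.single_le_sum (f := fun l => ∑ c ∈ s₂, (f₂ l c).natAbs)
        (fun _ _ => Nat.zero_le _) (Finset.mem_univ l)
    omega

theorem prod_zpow {α E : Type*} [Field E] (s : Finset α) (y : α → E) (hy : ∀ c ∈ s, y c ≠ 0)
    (K : ℕ) (e : α → ℤ) (he : ∀ c ∈ s, 0 ≤ (K : ℤ) + e c) :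
    ∏ c ∈ s, y c ^ ((K : ℤ) + e c).toNat = (∏ c ∈ s, y c ^ K) * ∏ c ∈ s, y c ^ e c := by
  rw [← Finset.prod_mul_distrib]
  refine Finset.prod_congr rfl fun c hc => ?_
  rw [← zpow_natCast (y c) ((K : ℤ) + e c).toNat, Int.toNat_of_nonneg (he c hc),
    zpow_add₀ (hy c hc), zpow_natCast]

theorem XsubC_ne {k : Type*} [Field k] (i : Fin 2) (c : k) :
    (X i - C c : MvPolynomial (Fin 2) k) ≠ 0 := by
  intro h
  have h1 : (X i : MvPolynomial (Fin 2) k) = C c := sub_eq_zero.1 h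
  have h2 := congrArg (fun p => MvPolynomial.totalDegree p) h1
  simp at h2

/-- the coefficient of `X ^ (2 * l)` -/
noncomputable def cf {k : Type*} [Field k] {N₁ N₂ : ℕ} (a : Fin N₁ → k) (b : Fin N₂ → k)
    (s₁ s₂ : Finset k) (ρ₁ ρ₂ : k → ℚ) (q : Fin 17 → MvPolynomial (Fin 2) k) (K : ℕ)
    (l : Fin 17) : MvPolynomial (Fin 2) k :=
  q l * (∏ j, (X 1 - C (b j))) ^ (2 * (l : ℕ)) * (∏ i, (X 0 - C (a i))) ^ (32 - 2 * (l : ℕ)) *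
    (∏ c ∈ s₁, (X 0 - C c) ^ ((K : ℤ) + ⌊(l : ℕ) * ρ₁ c⌋).toNat) *
    ∏ c ∈ s₂, (X 1 - C c) ^ ((K : ℤ) + (- ⌊(l : ℕ) * ρ₂ c⌋)).toNat

theorem cf_ne {k : Type*} [Field k] {N₁ N₂ : ℕ} (a : Fin N₁ → k) (b : Fin N₂ → k)
    (s₁ s₂ : Finset k) (ρ₁ ρ₂ : k → ℚ) (q : Fin 17 → MvPolynomial (Fin 2) k) (K : ℕ)
    (l : Fin 17) (h : q l ≠ 0) : cf a b s₁ s₂ ρ₁ ρ₂ q K l ≠ 0 := by
  unfold cf
  refine mul_ne_zero (mul_ne_zero (mul_ne_zero (mul_ne_zero h ?_) ?_) ?_) ?_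
  · exact pow_ne_zero _ (Finset.prod_ne_zero_iff.2 fun j _ => XsubC_ne _ _)
  · exact pow_ne_zero _ (Finset.prod_ne_zero_iff.2 fun j _ => XsubC_ne _ _)
  · exact Finset.prod_ne_zero_iff.2 fun c _ => pow_ne_zero _ (XsubC_ne _ _)
  · exact Finset.prod_ne_zero_iff.2 fun c _ => pow_ne_zero _ (XsubC_ne _ _)

theorem alt0 : AltStmt.{u} := by
  intro k _ _ _ N₁ N₂ a b _ _ s₁ s₂ ρ₁ ρ₂ q hq
  obtain ⟨K, hK⟩ := exists_K s₁ s₂ (fun l c => ⌊((l : ℕ) : ℚ) * ρ₁ c⌋)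
    (fun l c => - ⌊((l : ℕ) : ℚ) * ρ₂ c⌋)
  refine ⟨∑ l : Fin 17, Polynomial.C (cf a b s₁ s₂ ρ₁ ρ₂ q K l) * Polynomial.X ^ (2 * (l : ℕ)),
    ?_, ?_, ?_⟩
  · obtain ⟨l, hl⟩ : ∃ l, q l ≠ 0 := by
      by_contra hcon
      push Not at hcon
      exact hq (funext hcon)
    intro h0
    have h1 := congrArg (fun p => Polynomial.coeff p (2 * (l : ℕ))) h0
    simp only [Polynomial.finset_sum_coeff, Polynomial.coeff_zero,
      Polynomial.coeff_C_mul_X_pow] at h1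
    rw [Finset.sum_eq_single l] at h1
    · rw [if_pos rfl] at h1
      exact cf_ne a b s₁ s₂ ρ₁ ρ₂ q K l hl h1
    · intro l' _ hne
      rw [if_neg]
      intro he
      exact hne (Fin.ext (by omega))
    · intro h
      exact absurd (Finset.mem_univ l) h
  · refine Polynomial.natDegree_sum_le_of_forall_le _ _ fun l _ => ?_
    refine le_trans (Polynomial.natDegree_C_mul_X_pow_le _ _) ?_
    have := l.2
    omega
  · intro C hC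
    have hx : ∀ c : k, C.x - algebraMap k C.E c ≠ 0 := by
      intro c h
      exact C.dx ((C.ker C.x).2 ⟨c, (sub_eq_zero.1 h).symm⟩)
    have hz : ∀ c : k, C.z - algebraMap k C.E c ≠ 0 := by
      intro c h
      exact C.dz ((C.ker C.z).2 ⟨c, (sub_eq_zero.1 h).symm⟩)
    have hf : C.f ≠ 0 := Finset.prod_ne_zero_iff.2 fun i _ => hx _
    unfold RootTh
    have key : ∀ l : Fin 17, C.ev2 (cf a b s₁ s₂ ρ₁ ρ₂ q K l) * C.th ^ (2 * (l : ℕ)) =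
        (C.f ^ 32 * (∏ c ∈ s₁, (C.x - algebraMap k C.E c) ^ K) *
          ∏ c ∈ s₂, (C.z - algebraMap k C.E c) ^ K) *
        (C.ev2 (q l) * C.th ^ (l : ℕ) * phs C s₁ s₂ ρ₁ ρ₂ l) := by
      intro l
      have e1 : C.ev2 (cf a b s₁ s₂ ρ₁ ρ₂ q K l) = C.ev2 (q l) * C.g ^ (2 * (l : ℕ)) *
          C.f ^ (32 - 2 * (l : ℕ)) *
          (∏ c ∈ s₁, (C.x - algebraMap k C.E c) ^ ((K : ℤ) + ⌊((l : ℕ) : ℚ) * ρ₁ c⌋).toNat) *
          ∏ c ∈ s₂, (C.z - algebraMap k C.E c) ^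
            ((K : ℤ) + (- ⌊((l : ℕ) : ℚ) * ρ₂ c⌋)).toNat := by
        unfold cf BC.ev2 BC.f BC.g
        simp only [map_mul, map_pow, map_prod, map_sub, aeval_X, aeval_C,
          Matrix.cons_val_zero, Matrix.cons_val_one]
      rw [e1, prod_zpow s₁ (fun c => C.x - algebraMap k C.E c) (fun c _ => hx c) K
        (fun c => ⌊((l : ℕ) : ℚ) * ρ₁ c⌋) (hK l).1,
        prod_zpow s₂ (fun c => C.z - algebraMap k C.E c) (fun c _ => hz c) K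
        (fun c => - ⌊((l : ℕ) : ℚ) * ρ₂ c⌋) (hK l).2]
      unfold phs BC.ph
      have h32 : C.f ^ 32 = C.f ^ (32 - 2 * (l : ℕ)) * C.f ^ (2 * (l : ℕ)) := by
        rw [← pow_add]
        congr 1
        have := l.2
        omega
      have hfl : C.f ^ (2 * (l : ℕ)) ≠ 0 := pow_ne_zero _ hf
      have hq2 : (C.th * C.g ^ 2 / C.f ^ 2) ^ (l : ℕ) * C.f ^ (2 * (l : ℕ)) =
          C.th ^ (l : ℕ) * C.g ^ (2 * (l : ℕ)) := by
        rw [div_pow, mul_pow, ← pow_mul, ← pow_mul, div_mul_cancel₀ _ hfl]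
      have ht : C.th ^ (2 * (l : ℕ)) = C.th ^ (l : ℕ) * C.th ^ (l : ℕ) := by
        rw [← pow_add]; congr 1; omega
      rw [h32, ht]
      linear_combination (- C.ev2 (q l) * C.f ^ (32 - 2 * (l : ℕ)) * C.th ^ (l : ℕ) *
        (∏ c ∈ s₁, (C.x - algebraMap k C.E c) ^ K) *
        (∏ c ∈ s₁, (C.x - algebraMap k C.E c) ^ ⌊((l : ℕ) : ℚ) * ρ₁ c⌋) *
        (∏ c ∈ s₂, (C.z - algebraMap k C.E c) ^ K) *
        (∏ c ∈ s₂, (C.z - algebraMap k C.E c) ^ (- ⌊((l : ℕ) : ℚ) * ρ₂ c⌋))) * hq2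
    have e2 : (∑ l : Fin 17, Polynomial.C (cf a b s₁ s₂ ρ₁ ρ₂ q K l) *
        Polynomial.X ^ (2 * (l : ℕ))).eval₂
        (aeval ![C.x, C.z] : MvPolynomial (Fin 2) k →ₐ[k] C.E).toRingHom C.th =
        ∑ l : Fin 17, C.ev2 (cf a b s₁ s₂ ρ₁ ρ₂ q K l) * C.th ^ (2 * (l : ℕ)) := by
      rw [Polynomial.eval₂_finset_sum]
      refine Finset.sum_congr rfl fun l _ => ?_
      rw [Polynomial.eval₂_mul, Polynomial.eval₂_C, Polynomial.eval₂_pow, Polynomial.eval₂_X]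
      rfl
    rw [e2, Finset.sum_congr rfl fun l _ => key l, ← Finset.mul_sum, hC, mul_zero]

/-- ALT -/
theorem alt (_ : NodStmt.{u}) : AltStmt.{u} := alt0

end Pool.Agent.PPZ.H86
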